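import Pool.Agent.P.MP_625351_al.Regimes

open Pool.Agent.P.MP_625351_al

/-- Q1, with every growth rate: for every nondecreasing `f` between some power `n ^ α` and `o(n)`
there is a congruence box space whose diameters have the exact order `f` of the orders of the
quotients, and it has property D for every exponent `α` with `n ^ α ≤ f n` eventually. -/
theorem Pool.Agent.Results.MP_625351_al.LargeDiameters.result (f : ℕ → ℝ) (hf : Monotone f)
    (hlow : ∃ α : ℝ, 0 < α ∧ ∀ᶠ n : ℕ in Filter.atTop, (n : ℝ) ^ α ≤ f n)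
    (ho : Filter.Tendsto (fun n : ℕ => f n / n) Filter.atTop (nhds 0)) :
    ∃ I : ℕ → Ideal (LaurentPolynomial ℤ), IsCongruenceFiltration I ∧
      ∀ S : Finset G, Subgroup.closure (S : Set G) = ⊤ →
        (∀ α : ℝ, (∀ᶠ n : ℕ in Filter.atTop, (n : ℝ) ^ α ≤ f n) → HasD S I α) ∧
        ∃ c C : ℝ, 0 < c ∧ ∀ k,
          c * f (Nat.card (G ⧸ congr (I k))) ≤ ((SimpleGraph.mulCayley (QuotientGroup.mk ''
            (S : Set G) : Set (G ⧸ congr (I k)))).diam : ℝ) ∧
          ((SimpleGraph.mulCayley (QuotientGroup.mk '' (S : Set G) :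
            Set (G ⧸ congr (I k)))).diam : ℝ) ≤ C * f (Nat.card (G ⧸ congr (I k))) :=
  large_regime f hf hlow ho

/-- The instance `f n = n ^ β`, `α = β`: property D with any exponent `β` in `(0, 1)` occurs;
`β = 1 / 2` is the earlier answer to Q1. -/
theorem Pool.Agent.Results.MP_625351_al.LargeDiameters.q1_instance (β : ℝ) (h0 : 0 < β)
    (h1 : β < 1) : ∃ I : ℕ → Ideal (LaurentPolynomial ℤ), IsCongruenceFiltration I ∧
      ∀ S : Finset G, Subgroup.closure (S : Set G) = ⊤ → HasD S I β := by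
  obtain ⟨I, hI, h⟩ := Pool.Agent.Results.MP_625351_al.LargeDiameters.result
    (fun n => (n : ℝ) ^ β)
    (fun m n hmn => Real.rpow_le_rpow (Nat.cast_nonneg m) (by exact_mod_cast hmn) h0.le)
    ⟨β, h0, Filter.Eventually.of_forall fun _ => le_rfl⟩ (by
      refine ((tendsto_rpow_neg_atTop (sub_pos.2 h1)).comp tendsto_natCast_atTop_atTop).congr' ?_
      filter_upwards [Filter.eventually_ge_atTop 1] with n hn
      have h2 : (n : ℝ) ≠ 0 := by exact_mod_cast (by omega : n ≠ 0)
      rw [Function.comp, neg_sub, Real.rpow_sub_one h2])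
  exact ⟨I, hI, fun S hS => (h S hS).1 β (Filter.Eventually.of_forall fun _ => le_rfl)⟩
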