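import Pool.Agent.P.MP_625351_al.Regimes

open Pool.Agent.P.MP_625351_al

/-- Q2, with every growth rate: for every nondecreasing `f` between a multiple of `log n` and
`n ^ o(1)` there is a congruence box space whose diameters have the exact order `f` of the orders
of the quotients, and it fails property D for every positive exponent along every subsequence. -/
theorem Pool.Agent.Results.MP_625351_al.SmallDiameters.result (f : ℕ → ℝ) (hf : Monotone f)
    (hlog : ∃ κ : ℝ, 0 < κ ∧ ∀ᶠ n : ℕ in Filter.atTop, κ * Real.log n ≤ f n)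
    (hsub : ∀ α : ℝ, 0 < α → ∀ᶠ n : ℕ in Filter.atTop, f n ≤ (n : ℝ) ^ α) :
    ∃ I : ℕ → Ideal (LaurentPolynomial ℤ), IsCongruenceFiltration I ∧
      ∀ S : Finset G, Subgroup.closure (S : Set G) = ⊤ →
        (∀ α : ℝ, 0 < α → ∀ φ : ℕ → ℕ, StrictMono φ → ¬ HasD S (fun k => I (φ k)) α) ∧
        ∃ c C : ℝ, 0 < c ∧ ∀ k,
          c * f (Nat.card (G ⧸ congr (I k))) ≤ ((SimpleGraph.mulCayley (QuotientGroup.mk ''
            (S : Set G) : Set (G ⧸ congr (I k)))).diam : ℝ) ∧
          ((SimpleGraph.mulCayley (QuotientGroup.mk '' (S : Set G) :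
            Set (G ⧸ congr (I k)))).diam : ℝ) ≤ C * f (Nat.card (G ⧸ congr (I k))) :=
  small_regime f hf hlog hsub

/-- The instance `f = log`: the earlier answer to Q2, with logarithmic diameters. -/
theorem Pool.Agent.Results.MP_625351_al.SmallDiameters.q2_instance :
    ∃ I : ℕ → Ideal (LaurentPolynomial ℤ), IsCongruenceFiltration I ∧
      ∀ S : Finset G, Subgroup.closure (S : Set G) = ⊤ → ∀ α : ℝ, 0 < α →
        ∀ φ : ℕ → ℕ, StrictMono φ → ¬ HasD S (fun k => I (φ k)) α := by
  obtain ⟨I, hI, h⟩ := Pool.Agent.Results.MP_625351_al.SmallDiameters.result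
    (fun n => Real.log n)
    (fun m n hmn => by
      rcases Nat.eq_zero_or_pos m with rfl | hm
      · simpa using Real.log_natCast_nonneg n
      · exact Real.log_le_log (by exact_mod_cast hm) (by exact_mod_cast hmn))
    ⟨1, one_pos, Filter.Eventually.of_forall fun _ => (one_mul _).le⟩ (fun α hα => by
      filter_upwards [tendsto_natCast_atTop_atTop.eventually
        (isLittleO_log_rpow_atTop hα).eventuallyLE] with n hn
      exact (le_abs_self _).trans (hn.trans_eq (abs_of_nonneg (by positivity))))
  exact ⟨I, hI, fun S hS => (h S hS).1⟩
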